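import Mathlib
import Pool.Agent.Q4.SN.Stm

/-!
# Job INT: the seminorm of an integral of multipliers
-/

open Filter Topology Set MeasureTheory
open scoped NNReal ENNReal

namespace Q144.SN

open Q4.SN

/-- A real linear functional below a seminorm, with equality at a given vector. -/
theorem exists_funct {V : Type*} [AddCommGroup V] [Module ℂ V] (N : Seminorm ℂ V) {y : V}
    (hy : y ≠ 0) : ∃ φ : V →ₗ[ℝ] ℝ, (∀ z, φ z ≤ N z) ∧ φ y = N y := by
  have hsm : ∀ (c : ℝ) (x : V), N (c • x) = |c| * N x := by
    intro c x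
    have h := map_smul_eq_mul N ((c : ℝ) : ℂ) x
    rw [Complex.norm_real, Real.norm_eq_abs, Complex.coe_smul] at h
    exact h
  let f : V →ₗ.[ℝ] ℝ := LinearPMap.mkSpanSingleton y (N y) hy
  obtain ⟨g, hg1, hg2⟩ := exists_extension_of_le_sublinear f (fun z => N z)
    (by
      intro c hc x
      rw [hsm, abs_of_pos hc])
    (by
      intro x z
      exact map_add_le_add N x z)
    (by
      rintro ⟨x, hx⟩
      obtain ⟨c, rfl⟩ := Submodule.mem_span_singleton.1 hx
      have h1 : f ⟨c • y, hx⟩ = c • N y := LinearPMap.mkSpanSingleton'_apply y (N y) _ c hx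
      rw [h1]
      show c • N y ≤ N (c • y)
      rw [hsm, smul_eq_mul]
      exact mul_le_mul_of_nonneg_right (le_abs_self c) (apply_nonneg N y))
  refine ⟨g, hg2, ?_⟩
  have hx : y ∈ f.domain := Submodule.mem_span_singleton_self y
  have h1 := hg1 ⟨y, hx⟩
  have h2 : f ⟨y, hx⟩ = N y := by
    have h3 : f ⟨(1 : ℝ) • y, by rw [one_smul]; exact hx⟩ = (1 : ℝ) • N y :=
      LinearPMap.mkSpanSingleton'_apply y (N y) _ 1 _
    simpa using h3
  rw [h2] at h1
  exact h1

theorem funct_mult {I V : Type*} [AddCommGroup V] [Module ℂ V] (b : Module.Basis I ℂ V)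
    (a : I → ℝ) (φ : V →ₗ[ℝ] ℝ) (f : ℝ → ℝ) (x : V) :
    φ (mult b a f x) = ∑ i ∈ (b.repr x).support, f (a i) * φ (b.repr x i • b i) := by
  unfold mult
  rw [Module.Basis.constr_apply, Finsupp.sum, map_sum]
  apply Finset.sum_congr rfl
  intro i _
  rw [smul_comm, Complex.coe_smul, map_smul, smul_eq_mul]

universe u v

/-- The seminorm of an integral of multipliers. -/
theorem tInt : Q4.SN.SINT.{u, v} := by
  intro I V _ _ b a N S g f h x hS hg hf hh hN
  by_cases hy : mult b a f x = 0
  · rw [hy, map_zero]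
    apply setIntegral_nonneg hS
    intro l hl
    exact le_trans (apply_nonneg N _) (hN l hl)
  · obtain ⟨φ, hφ1, hφ2⟩ := exists_funct N hy
    rw [← hφ2, funct_mult]
    have e1 : ∑ i ∈ (b.repr x).support, f (a i) * φ (b.repr x i • b i) =
        ∫ l in S, ∑ i ∈ (b.repr x).support, g l (a i) * φ (b.repr x i • b i) := by
      rw [integral_finsetSum]
      · apply Finset.sum_congr rfl
        intro i _
        rw [integral_mul_const, hf i]
      · intro i _
        exact (hg i).mul_const _
    rw [e1]
    apply setIntegral_mono_on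
    · exact integrable_finsetSum _ (fun i _ => (hg i).mul_const _)
    · exact hh
    · exact hS
    · intro l hl
      rw [← funct_mult b a φ (g l) x]
      exact le_trans (hφ1 _) (hN l hl)

end Q144.SN
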