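import Mathlib
import Pool.Agent.Q4.SN.Stm

/-!
# Job INTP: integer powers of the resolvent
-/

open Filter Topology Set MeasureTheory
open scoped NNReal ENNReal

namespace Q144.SN

open Q4.SN

section

variable {I V : Type*} [AddCommGroup V] [Module ℂ V] (b : Module.Basis I ℂ V) (a : I → ℝ)
  (N : Seminorm ℂ V)

theorem mult_one (x : V) : mult b a (fun _ => 1) x = x := by
  rw [mult_const]
  simp

theorem mult_cmul (c : ℝ) (f : ℝ → ℝ) (x : V) :
    mult b a (fun t => c * f t) x = (c : ℂ) • mult b a f x := by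
  rw [← mult_mult b a (fun _ => c) f x, mult_const]

theorem N_cmul (c : ℝ) (hc : 0 ≤ c) (f : ℝ → ℝ) (x : V) :
    N (mult b a (fun t => c * f t) x) = c * N (mult b a f x) := by
  rw [mult_cmul, map_smul_eq_mul, Complex.norm_real, Real.norm_eq_abs, abs_of_nonneg hc]

theorem iter (f : ℝ → ℝ) (K : ℝ) (hK : 0 ≤ K) (h : ∀ x, N (mult b a f x) ≤ K * N x) (n : ℕ)
    (x : V) : N (mult b a (fun t => f t ^ n) x) ≤ K ^ n * N x := by
  induction n with
  | zero =>
    simp only [pow_zero, one_mul]
    rw [mult_one]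
  | succ n ih =>
    have e : mult b a (fun t => f t ^ (n + 1)) x = mult b a f (mult b a (fun t => f t ^ n) x) := by
      rw [mult_mult]
      apply mult_congr
      intro i
      rw [pow_succ']
    rw [e]
    calc N (mult b a f (mult b a (fun t => f t ^ n) x))
        ≤ K * N (mult b a (fun t => f t ^ n) x) := h _
      _ ≤ K * (K ^ n * N x) := mul_le_mul_of_nonneg_left ih hK
      _ = K ^ (n + 1) * N x := by rw [pow_succ']; ring

variable {b a N}

theorem res1 {B : ℝ} (ha : ∀ i, 1 ≤ a i) (hR : Res b a B N) {ρ : ℝ} (hρ : 0 ≤ ρ) (x : V) :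
    N (mult b a (fun t => 1 / (t + ρ)) x) ≤ B / (1 + ρ) * N x := by
  have h := hR ρ hρ (mult b a (fun t => 1 / (t + ρ)) x)
  rw [mult_mult] at h
  have e : mult b a (fun t => (t + ρ) * (1 / (t + ρ))) x = x := by
    rw [mult_congr b a (g := fun _ => 1), mult_one]
    intro i
    have := ha i
    field_simp
  rw [e] at h
  have h1 : 0 < 1 + ρ := by linarith
  rw [div_mul_eq_mul_div, le_div_iff₀ h1]
  linarith

theorem res2 {B : ℝ} (ha : ∀ i, 1 ≤ a i) (hB : 1 ≤ B) (hR : Res b a B N) {ρ : ℝ} (hρ : 0 ≤ ρ)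
    (x : V) : N (mult b a (fun t => t / (t + ρ)) x) ≤ (1 + B) * N x := by
  have e : mult b a (fun t => t / (t + ρ)) x =
      x - mult b a (fun t => ρ * (1 / (t + ρ))) x := by
    have h1 := mult_sub b a (fun _ => 1) (fun t => ρ * (1 / (t + ρ))) x
    rw [mult_one] at h1
    rw [← h1]
    apply mult_congr
    intro i
    have := ha i
    field_simp
    ring
  rw [e]
  have h1 := res1 ha hR hρ x
  have h2 : N (mult b a (fun t => ρ * (1 / (t + ρ))) x) ≤ B * N x := by
    rw [N_cmul b a N ρ hρ]
    have h3 : 0 < 1 + ρ := by linarith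
    have h4 : ρ * (B / (1 + ρ) * N x) ≤ B * N x := by
      have h5 : ρ * (B / (1 + ρ)) ≤ B := by
        rw [← mul_div_assoc, div_le_iff₀ h3]
        nlinarith
      have h6 := apply_nonneg N x
      calc ρ * (B / (1 + ρ) * N x) = ρ * (B / (1 + ρ)) * N x := by ring
        _ ≤ B * N x := mul_le_mul_of_nonneg_right h5 h6
    exact le_trans (mul_le_mul_of_nonneg_left h1 hρ) h4
  calc N (x - mult b a (fun t => ρ * (1 / (t + ρ))) x)
      ≤ N x + N (mult b a (fun t => ρ * (1 / (t + ρ))) x) := map_sub_le_add N _ _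
    _ ≤ N x + B * N x := by linarith
    _ = (1 + B) * N x := by ring

theorem res3 {B : ℝ} (ha : ∀ i, 1 ≤ a i) (hB : 1 ≤ B) (hR : Res b a B N) {l : ℝ} (hl : 0 ≤ l)
    (hl1 : l ≤ 1) (x : V) :
    N (mult b a (fun t => (t + 1) / (t + l)) x) ≤ (1 + B) * N x := by
  have e : mult b a (fun t => (t + 1) / (t + l)) x =
      x + mult b a (fun t => (1 - l) * (1 / (t + l))) x := by
    have h1 := mult_add b a (fun _ => 1) (fun t => (1 - l) * (1 / (t + l))) x
    rw [mult_one] at h1
    rw [← h1]
    apply mult_congr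
    intro i
    have := ha i
    field_simp
    ring
  rw [e]
  have h1 := res1 ha hR hl x
  have h2 : N (mult b a (fun t => (1 - l) * (1 / (t + l))) x) ≤ B * N x := by
    rw [N_cmul b a N (1 - l) (by linarith)]
    have h3 : 0 < 1 + l := by linarith
    have h4 : (1 - l) * (B / (1 + l) * N x) ≤ B * N x := by
      have h5 : (1 - l) * (B / (1 + l)) ≤ B := by
        rw [← mul_div_assoc, div_le_iff₀ h3]
        nlinarith
      have h6 := apply_nonneg N x
      calc (1 - l) * (B / (1 + l) * N x) = (1 - l) * (B / (1 + l)) * N x := by ring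
        _ ≤ B * N x := mul_le_mul_of_nonneg_right h5 h6
    exact le_trans (mul_le_mul_of_nonneg_left h1 (by linarith)) h4
  calc N (x + mult b a (fun t => (1 - l) * (1 / (t + l))) x)
      ≤ N x + N (mult b a (fun t => (1 - l) * (1 / (t + l))) x) := map_add_le_add N _ _
    _ ≤ N x + B * N x := by linarith
    _ = (1 + B) * N x := by ring

end

universe u v

/-- Integer powers of the resolvent. -/
theorem tIntp : Q4.SN.SINTP.{u, v} := by
  intro I V _ _ b a N B ha hB hR
  refine ⟨?_, ?_, ?_⟩
  · intro k m ρ x hkm hρ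
    have e : mult b a (fun t => t ^ k / (t + ρ) ^ m) x =
        mult b a (fun t => (t / (t + ρ)) ^ k)
          (mult b a (fun t => (1 / (t + ρ)) ^ (m - k)) x) := by
      rw [mult_mult]
      apply mult_congr
      intro i
      have h1 := ha i
      have h2 : a i + ρ ≠ 0 := by linarith
      obtain ⟨j, rfl⟩ := Nat.exists_eq_add_of_le hkm
      rw [Nat.add_sub_cancel_left, pow_add, div_pow, div_pow, one_pow]
      field_simp
    rw [e]
    have h3 : 0 ≤ B / (1 + ρ) := by
      have : 0 < 1 + ρ := by linarith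
      positivity
    calc N (mult b a (fun t => (t / (t + ρ)) ^ k)
          (mult b a (fun t => (1 / (t + ρ)) ^ (m - k)) x))
        ≤ (1 + B) ^ k * N (mult b a (fun t => (1 / (t + ρ)) ^ (m - k)) x) :=
          iter b a N (fun t => t / (t + ρ)) (1 + B) (by linarith)
            (fun y => res2 ha hB hR hρ y) k _
      _ ≤ (1 + B) ^ k * ((B / (1 + ρ)) ^ (m - k) * N x) := by
          apply mul_le_mul_of_nonneg_left _ (by positivity)
          exact iter b a N (fun t => 1 / (t + ρ)) (B / (1 + ρ)) h3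
            (fun y => res1 ha hR hρ y) (m - k) x
      _ = (1 + B) ^ k * (B / (1 + ρ)) ^ (m - k) * N x := by ring
  · intro m ρ x hρ
    apply iter b a N (fun t => ρ / (t + ρ)) B (by linarith)
    intro y
    have e : mult b a (fun t => ρ / (t + ρ)) y = mult b a (fun t => ρ * (1 / (t + ρ))) y := by
      apply mult_congr
      intro i
      ring
    rw [e, N_cmul b a N ρ hρ]
    have h1 := res1 ha hR hρ y
    have h3 : 0 < 1 + ρ := by linarith
    have h5 : ρ * (B / (1 + ρ)) ≤ B := by
      rw [← mul_div_assoc, div_le_iff₀ h3]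
      nlinarith
    have h6 := apply_nonneg N y
    calc ρ * N (mult b a (fun t => 1 / (t + ρ)) y)
        ≤ ρ * (B / (1 + ρ) * N y) := mul_le_mul_of_nonneg_left h1 hρ
      _ = ρ * (B / (1 + ρ)) * N y := by ring
      _ ≤ B * N y := mul_le_mul_of_nonneg_right h5 h6
  · intro m l x hl hl1
    exact iter b a N (fun t => (t + 1) / (t + l)) (1 + B) (by linarith)
      (fun y => res3 ha hB hR hl hl1 y) m x

end Q144.SN
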