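import Mathlib
import Pool.Agent.Q4.SN.Stm

/-!
# Job NEG: negative powers
-/

open Filter Topology Set MeasureTheory
open scoped NNReal ENNReal

namespace Q144.SN

open Q4.SN

universe u v

/-- Negative powers are bounded. -/
theorem tNeg : Q4.SN.SSC → Q4.SN.SINT.{u, v} → Q4.SN.SINTP.{u, v} → Q4.SN.SNEG.{u, v} := by
  intro hSC hINT hINTP I V _ _ b a N B ha hB hR α hα
  rcases hα.eq_or_lt with hα0 | hα0
  · refine ⟨1, zero_le_one, fun x => ?_⟩
    have e : mult b a (fun t => t ^ (-α)) x = x := by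
      rw [mult_congr b a (g := fun _ => 1), mult_const]
      · simp
      · intro i
        rw [← hα0, neg_zero, Real.rpow_zero]
    rw [e, one_mul]
  · obtain ⟨m, hm⟩ := exists_nat_gt α
    obtain ⟨c, hc, hci⟩ := hSC m α hα0 hm
    refine ⟨B ^ m, by positivity, fun x => ?_⟩
    have h1 := hINT b a N (Ioi 0) (fun l t => c⁻¹ * (l ^ ((m : ℝ) - 1 - α) / (t + l) ^ m))
      (fun t => t ^ (-α)) (fun l => (c⁻¹ * B ^ m * N x) *
        (l ^ ((m : ℝ) - 1 - α) / (1 + l) ^ m)) x measurableSet_Ioi
      (fun i => (hci (a i) (by linarith [ha i])).1.const_mul _)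
      (fun i => by
        rw [integral_const_mul, (hci (a i) (by linarith [ha i])).2, ← mul_assoc,
          inv_mul_cancel₀ hc.ne', one_mul])
      ((hci 1 zero_lt_one).1.const_mul _)
      (by
        intro l hl
        have hl0 : 0 < l := hl
        have h2 := (hINTP b a N B ha hB hR).1 0 m l x (Nat.zero_le m) hl0.le
        rw [pow_zero, one_mul, Nat.sub_zero] at h2
        have h3 : 0 ≤ c⁻¹ * l ^ ((m : ℝ) - 1 - α) :=
          mul_nonneg (inv_nonneg.2 hc.le) (Real.rpow_nonneg hl0.le _)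
        have e : mult b a (fun t => c⁻¹ * (l ^ ((m : ℝ) - 1 - α) / (t + l) ^ m)) x =
            (((c⁻¹ * l ^ ((m : ℝ) - 1 - α) : ℝ)) : ℂ) • mult b a (fun t => t ^ 0 / (t + l) ^ m) x := by
          rw [← mult_const b a, mult_mult]
          apply mult_congr
          intro i
          rw [pow_zero]
          ring
        show N (mult b a (fun t => c⁻¹ * (l ^ ((m : ℝ) - 1 - α) / (t + l) ^ m)) x) ≤ _
        rw [e, map_smul_eq_mul, Complex.norm_real, Real.norm_eq_abs, abs_of_nonneg h3]
        calc c⁻¹ * l ^ ((m : ℝ) - 1 - α) * N (mult b a (fun t => t ^ 0 / (t + l) ^ m) x)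
            ≤ c⁻¹ * l ^ ((m : ℝ) - 1 - α) * ((B / (1 + l)) ^ m * N x) :=
              mul_le_mul_of_nonneg_left h2 h3
          _ = c⁻¹ * B ^ m * N x * (l ^ ((m : ℝ) - 1 - α) / (1 + l) ^ m) := by
              rw [div_pow]
              ring)
    refine le_trans h1 ?_
    rw [integral_const_mul, (hci 1 zero_lt_one).2, Real.one_rpow, mul_one]
    apply le_of_eq
    field_simp

end Q144.SN
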