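import Mathlib
import Pool.Agent.Q4.SN.Stm

/-!
# Job SC: the scalar integral
-/

open Filter Topology Set MeasureTheory
open scoped NNReal ENNReal

namespace Q144.SN

theorem cont_f (m : ℕ) (α : ℝ) {t : ℝ} (ht : 0 < t) :
    ContinuousOn (fun l : ℝ => l ^ ((m : ℝ) - 1 - α) / (t + l) ^ m) (Ioi 0) := by
  apply ContinuousOn.div
  · intro x hx
    exact (Real.continuousAt_rpow_const x _ (Or.inl (ne_of_gt hx))).continuousWithinAt
  · fun_prop
  · intro x hx
    have hx' : 0 < x := hx
    positivity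

theorem int_one (m : ℕ) (α : ℝ) (hα : 0 < α) (hm : α < m) :
    IntegrableOn (fun l : ℝ => l ^ ((m : ℝ) - 1 - α) / (1 + l) ^ m) (Ioi 0) := by
  have hc := cont_f m α (zero_lt_one)
  have hsplit : Ioi (0 : ℝ) = Ioc 0 1 ∪ Ioi 1 := by
    rw [Ioc_union_Ioi_eq_Ioi (zero_le_one)]
  have hm1 : AEStronglyMeasurable (fun l : ℝ => l ^ ((m : ℝ) - 1 - α) / (1 + l) ^ m)
      (volume.restrict (Ioi 0)) := hc.aestronglyMeasurable measurableSet_Ioi
  rw [hsplit]
  apply IntegrableOn.union
  · have h1 : IntegrableOn (fun l : ℝ => l ^ ((m : ℝ) - 1 - α)) (Ioc 0 1) := by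
      have h2 := intervalIntegral.intervalIntegrable_rpow' (a := 0) (b := 1)
        (r := (m : ℝ) - 1 - α) (by linarith)
      rwa [intervalIntegrable_iff_integrableOn_Ioc_of_le zero_le_one] at h2
    refine Integrable.mono' h1 ?_ ?_
    · exact hm1.mono_measure (Measure.restrict_mono Ioc_subset_Ioi_self le_rfl)
    · filter_upwards [ae_restrict_mem measurableSet_Ioc] with x hx
      have hx0 : 0 < x := hx.1
      have h3 : 0 < x ^ ((m : ℝ) - 1 - α) := Real.rpow_pos_of_pos hx0 _
      have h4 : (1 : ℝ) ≤ (1 + x) ^ m := one_le_pow₀ (by linarith)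
      rw [Real.norm_of_nonneg (by positivity)]
      rw [div_le_iff₀ (by positivity)]
      nlinarith
  · have h1 : IntegrableOn (fun l : ℝ => l ^ (-1 - α)) (Ioi 1) :=
      integrableOn_Ioi_rpow_of_lt (by linarith) zero_lt_one
    refine Integrable.mono' h1 ?_ ?_
    · exact hm1.mono_measure (Measure.restrict_mono (Ioi_subset_Ioi zero_le_one) le_rfl)
    · filter_upwards [ae_restrict_mem measurableSet_Ioi] with x hx
      have hx1 : 1 < x := hx
      have hx0 : 0 < x := by linarith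
      have h3 : 0 < x ^ ((m : ℝ) - 1 - α) := Real.rpow_pos_of_pos hx0 _
      rw [Real.norm_of_nonneg (by positivity)]
      rw [div_le_iff₀ (by positivity)]
      have h5 : x ^ ((m : ℝ) - 1 - α) = x ^ (-1 - α) * x ^ m := by
        rw [← Real.rpow_natCast x m, ← Real.rpow_add hx0]
        congr 1
        ring
      rw [h5]
      apply mul_le_mul_of_nonneg_left _ (Real.rpow_nonneg hx0.le _)
      exact pow_le_pow_left₀ hx0.le (by linarith) m

theorem resc (m : ℕ) (α : ℝ) {t x : ℝ} (ht : 0 < t) (hx : 0 < x) :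
    (t * x) ^ ((m : ℝ) - 1 - α) / (t + t * x) ^ m =
      t ^ (-1 - α) * (x ^ ((m : ℝ) - 1 - α) / (1 + x) ^ m) := by
  have h1 : (t + t * x) ^ m = t ^ m * (1 + x) ^ m := by
    rw [← mul_pow]
    ring
  have h2 : (t * x) ^ ((m : ℝ) - 1 - α) = t ^ (-1 - α) * t ^ m * x ^ ((m : ℝ) - 1 - α) := by
    rw [Real.mul_rpow ht.le hx.le, ← Real.rpow_natCast t m, ← Real.rpow_add ht]
    congr 2
    ring
  rw [h1, h2]
  have h3 : (0 : ℝ) < t ^ m := by positivity
  have h4 : (0 : ℝ) < (1 + x) ^ m := by positivity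
  field_simp

/-- The scalar integral. -/
theorem tSC : Q4.SN.SSC := by
  intro m α hα hm
  have hint := int_one m α hα hm
  refine ⟨∫ l in Ioi (0 : ℝ), l ^ ((m : ℝ) - 1 - α) / (1 + l) ^ m, ?_, ?_⟩
  · rw [setIntegral_pos_iff_support_of_nonneg_ae]
    · have hs : Ioi (0 : ℝ) ⊆
          Function.support (fun l : ℝ => l ^ ((m : ℝ) - 1 - α) / (1 + l) ^ m) ∩ Ioi 0 := by
        intro x hx
        have hx0 : 0 < x := hx
        refine ⟨?_, hx⟩
        have h3 : 0 < x ^ ((m : ℝ) - 1 - α) := Real.rpow_pos_of_pos hx0 _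
        have h4 : 0 < x ^ ((m : ℝ) - 1 - α) / (1 + x) ^ m := by positivity
        exact ne_of_gt h4
      refine lt_of_lt_of_le ?_ (measure_mono hs)
      rw [Real.volume_Ioi]
      exact ENNReal.coe_lt_top
    · filter_upwards [ae_restrict_mem measurableSet_Ioi] with x hx
      have hx0 : 0 < x := hx
      have h3 : 0 < x ^ ((m : ℝ) - 1 - α) := Real.rpow_pos_of_pos hx0 _
      simp only [Pi.zero_apply]
      positivity
    · exact hint
  · intro t ht
    have e1 : EqOn (fun x : ℝ => (t * x) ^ ((m : ℝ) - 1 - α) / (t + t * x) ^ m)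
        (fun x : ℝ => t ^ (-1 - α) * (x ^ ((m : ℝ) - 1 - α) / (1 + x) ^ m)) (Ioi 0) := by
      intro x hx
      exact resc m α ht hx
    constructor
    · have h1 : IntegrableOn (fun x : ℝ => (t * x) ^ ((m : ℝ) - 1 - α) / (t + t * x) ^ m)
          (Ioi 0) := by
        rw [integrableOn_congr_fun e1 measurableSet_Ioi]
        exact hint.const_mul _
      have h2 := (integrableOn_Ioi_comp_mul_left_iff
        (fun l : ℝ => l ^ ((m : ℝ) - 1 - α) / (t + l) ^ m) 0 ht).1 h1
      rwa [mul_zero] at h2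
    · have h1 := integral_comp_mul_left_Ioi
        (fun l : ℝ => l ^ ((m : ℝ) - 1 - α) / (t + l) ^ m) 0 ht
      rw [mul_zero, smul_eq_mul, setIntegral_congr_fun measurableSet_Ioi e1,
        integral_const_mul] at h1
      have h3 : ∫ l in Ioi (0 : ℝ), l ^ ((m : ℝ) - 1 - α) / (t + l) ^ m =
          t * (t ^ (-1 - α) * ∫ l in Ioi (0 : ℝ), l ^ ((m : ℝ) - 1 - α) / (1 + l) ^ m) := by
        rw [h1]
        field_simp
      rw [h3]
      have h4 : t * t ^ (-1 - α) = t ^ (-α) := by
        nth_rewrite 1 [← Real.rpow_one t]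
        rw [← Real.rpow_add ht]
        congr 1
        ring
      rw [← mul_assoc, h4]
      ring

end Q144.SN
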